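import Mathlib
import Pool.Agent.R946.ES.Family
import Pool.Agent.R946.ES.Adversary

/-!
# Equitably 2-choosable disjoint unions of `n` stars

For `n ≥ 2` there are only finitely many equitably 2-choosable disjoint unions of `n` stars if and
only if `n ≤ 4`.

For `n ≥ 5` the disjoint union of two stars `K_{1, 3k+1}` and `n - 2` stars `K_{1, 2k+1}` is
equitably 2-choosable for every `k`.
-/

set_option autoImplicit false

open Pool.Agent.R946.ES

namespace Pool.Agent.Results.MP_0c0609_co.AtMostFour

lemma infinite_of_ge {n : ℕ} (hn : 5 ≤ n) :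
    {s : Multiset ℕ | ∃ m : Fin n → ℕ, (∀ i, 1 ≤ m i) ∧ EquitablyChoosable (stars m) 2 ∧
      s = Finset.univ.val.map m}.Infinite := by
  refine Set.infinite_of_injective_forall_mem (f := fun k : ℕ => Finset.univ.val.map (fam n k))
    ?_ ?_
  · intro k k' h
    have hs : ∑ i, fam n k i = ∑ i, fam n k' i := congrArg Multiset.sum h
    have hlt : ∀ a b : ℕ, a < b → ∑ i, fam n a i < ∑ i, fam n b i := by
      intro a b hab
      refine Finset.sum_lt_sum_of_nonempty ⟨⟨0, by omega⟩, Finset.mem_univ _⟩ fun i _ => ?_
      unfold fam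
      split_ifs <;> omega
    rcases lt_trichotomy k k' with h' | h' | h'
    · exact absurd hs (hlt k k' h').ne
    · exact h'
    · exact absurd hs (hlt k' k h').ne'
  · intro k
    have h1 : ∀ i, 1 ≤ fam n k i := by
      intro i
      unfold fam
      split_ifs <;> omega
    exact ⟨fam n k, h1, eqch_of_cond _ h1 (cond_fam hn k), rfl⟩

lemma finite_of_bound {n : ℕ} (h : ∀ m : Fin n → ℕ, EquitablyChoosable (stars m) 2 →
    ∀ i, m i ≤ 100) :
    {s : Multiset ℕ | ∃ m : Fin n → ℕ, (∀ i, 1 ≤ m i) ∧ EquitablyChoosable (stars m) 2 ∧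
      s = Finset.univ.val.map m}.Finite := by
  refine ((Set.finite_Iic (fun _ : Fin n => 100)).image
    (fun m => Finset.univ.val.map m)).subset ?_
  rintro s ⟨m, _, h2, rfl⟩
  exact ⟨m, fun i => h m h2 i, rfl⟩

/-- **Theorem.** Let `n ≥ 2`. There are only finitely many equitably 2-choosable disjoint unions
of `n` stars (given by the multisets of their sizes) if and only if `n ≤ 4`. -/
theorem result (n : ℕ) (hn : 2 ≤ n) :
    {s : Multiset ℕ | ∃ m : Fin n → ℕ, (∀ i, 1 ≤ m i) ∧ EquitablyChoosable (stars m) 2 ∧
      s = Finset.univ.val.map m}.Finite ↔ n ≤ 4 := by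
  constructor
  · intro h
    by_contra hcon
    exact infinite_of_ge (by omega) h
  · intro h
    interval_cases n
    · exact finite_of_bound bound_two
    · exact finite_of_bound bound_three
    · exact finite_of_bound bound_four

end Pool.Agent.Results.MP_0c0609_co.AtMostFour
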