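import Pool.Agent.R62.StarInf

/-!
# Equitably 2-choosable unions of `n` stars: finitely many iff `n ≤ 4`

For every `n ≥ 2` the number of multisets `{m_1, …, m_n}` of positive integers for which
`K_{1,m_1} + ⋯ + K_{1,m_n}` is equitably `2`-choosable is finite if and only if `n ≤ 4`.
-/

namespace Pool.Agent.Results.MP_0c0609_co.FiniteIffFour

open Finset

/-- The vertex-disjoint union of the stars `K_{1, m 0}, …, K_{1, m (n-1)}`: in the `i`-th star,
`none` is the centre and the `some x` are the `m i` leaves. -/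
def starUnion {n : ℕ} (m : Fin n → ℕ) : SimpleGraph (Σ i : Fin n, Option (Fin (m i))) :=
  SimpleGraph.fromRel (fun u v => ∃ (i : Fin n) (x : Fin (m i)), u = ⟨i, none⟩ ∧ v = ⟨i, some x⟩)

/-- Equitable `k`-choosability: for every assignment of sets of exactly `k` colours to the vertices
there is a proper colouring from the lists using each colour on at most `⌈|V| / k⌉` vertices. -/
def EqChoosable (k : ℕ) {V : Type} [Fintype V] (G : SimpleGraph V) : Prop :=
  ∀ L : V → Finset ℕ, (∀ v, (L v).card = k) →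
    ∃ f : V → ℕ, (∀ v, f v ∈ L v) ∧ (∀ u v, G.Adj u v → f u ≠ f v) ∧
      ∀ c, (univ.filter (fun v => f v = c)).card ≤ ⌈(Fintype.card V : ℚ) / k⌉₊

/-- The multisets `{m_1, …, m_n}` of positive integers for which the union of the stars `K_{1,m_i}`
is equitably `2`-choosable. -/
def good (n : ℕ) : Set (Multiset ℕ) :=
  {s | ∃ m : Fin n → ℕ, (∀ i, 1 ≤ m i) ∧ s = univ.val.map m ∧ EqChoosable 2 (starUnion m)}

lemma ceil_half (N : ℕ) : ⌈(N : ℚ) / (2 : ℕ)⌉₊ = (N + 1) / 2 := by
  apply le_antisymm
  · rw [Nat.ceil_le, div_le_iff₀ (by norm_num)]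
    have : N ≤ (N + 1) / 2 * 2 := by omega
    exact_mod_cast this
  · by_contra hcon
    push Not at hcon
    have h1 : (N : ℚ) / (2 : ℕ) ≤ (((N + 1) / 2 - 1 : ℕ) : ℚ) := by
      rw [← Nat.ceil_le]; omega
    rw [div_le_iff₀ (by norm_num)] at h1
    have h2 : N ≤ ((N + 1) / 2 - 1) * 2 := by exact_mod_cast h1
    have h3 : 0 < (N + 1) / 2 := by omega
    omega

lemma card_V {n : ℕ} (m : Fin n → ℕ) :
    Fintype.card (Σ i : Fin n, Option (Fin (m i))) = ∑ i, (m i + 1) := by
  rw [Fintype.card_sigma]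
  simp

lemma eqChoosable_iff {n : ℕ} (m : Fin n → ℕ) :
    EqChoosable 2 (starUnion m) ↔ R62.Star.Good m := by
  classical
  constructor
  · intro h L hL
    obtain ⟨f, hf, hp, hc⟩ := h (fun v => L v.1 v.2) (fun v => hL _ _)
    refine ⟨fun i x => f ⟨i, x⟩, fun i x => hf ⟨i, x⟩, ?_, ?_⟩
    · intro i x
      apply hp
      rw [starUnion, SimpleGraph.fromRel_adj]
      refine ⟨?_, Or.inr ⟨i, x, rfl, rfl⟩⟩
      intro he
      simp at he
    · intro c
      have h1 := hc c
      rw [R62.Star.sigma_count, ceil_half, card_V] at h1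
      exact h1
  · intro h L hL
    obtain ⟨g, hg, hp, hc⟩ := h (fun i x => L ⟨i, x⟩) (fun i x => hL _)
    refine ⟨fun v => g v.1 v.2, fun v => hg v.1 v.2, ?_, ?_⟩
    · intro u v huv
      rw [starUnion, SimpleGraph.fromRel_adj] at huv
      rcases huv.2 with ⟨i, x, rfl, rfl⟩ | ⟨i, x, rfl, rfl⟩
      · exact (hp i x).symm
      · exact hp i x
    · intro c
      rw [R62.Star.sigma_count, ceil_half, card_V]
      exact hc c

/-- **Q1 of MP_0c0609_co, answered for every `n`.** For `n ≥ 2`, only finitely many unions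
`K_{1,m_1} + ⋯ + K_{1,m_n}` are equitably `2`-choosable if and only if `n ≤ 4`. -/
theorem result (n : ℕ) (hn : 2 ≤ n) : (good n).Finite ↔ n ≤ 4 := by
  classical
  constructor
  · intro hfin
    by_contra hn4
    push Not at hn4
    obtain ⟨k, rfl⟩ : ∃ k, n = 5 + k := ⟨n - 5, by omega⟩
    refine (Set.infinite_of_injective_forall_mem (s := good (5 + k))
      (f := fun t : ℕ => (univ.val.map (R62.Star.fam k (t + 1)))) ?_ ?_) hfin
    · intro t t' h
      have h1 := congrArg Multiset.sum h
      have e : ∀ t, (univ.val.map (R62.Star.fam k (t + 1))).sum = ∑ i, R62.Star.fam k (t + 1) i :=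
        fun t => rfl
      simp only [e, R62.Star.fam_sum] at h1
      omega
    · intro t
      refine ⟨R62.Star.fam k (t + 1), ?_, rfl, ?_⟩
      · intro i
        unfold R62.Star.fam
        split_ifs <;> omega
      · rw [eqChoosable_iff]
        exact R62.Star.fam_good k (t + 1) (by omega)
  · intro hn4
    have hsub : good n ⊆ (fun m : Fin n → ℕ => univ.val.map m) '' Set.Iic (fun _ => 201) := by
      rintro s ⟨m, hm, rfl, hch⟩
      refine ⟨m, ?_, rfl⟩
      rw [Set.mem_Iic]
      intro i
      exact R62.Star.good_bdd hn hn4 m hm ((eqChoosable_iff m).1 hch) i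
    exact ((Set.finite_Iic _).image _).subset hsub

end Pool.Agent.Results.MP_0c0609_co.FiniteIffFour
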